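import Pool.Agent.Helper89.GP.GoalsA

namespace Pool.Agent.Helper49.GP

open Pool.Agent.Helper89.GP MeasureTheory

lemma measurableSet_Ch {n : ℕ} (σ : Equiv.Perm (Fin n)) : MeasurableSet (Ch σ) := by
  have h : Ch σ = (⋂ a, {x : Fin n → ℝ | 0 < x a}) ∩
      ⋂ a, ⋂ b, {x : Fin n → ℝ | σ a < σ b → x a < x b} := by
    ext x
    simp [Ch]
  rw [h]
  refine MeasurableSet.inter (MeasurableSet.iInter fun a => ?_)
    (MeasurableSet.iInter fun a => MeasurableSet.iInter fun b => ?_)
  · exact measurableSet_lt measurable_const (measurable_pi_apply a)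
  · by_cases hab : σ a < σ b
    · simp only [hab, forall_const]
      exact measurableSet_lt (measurable_pi_apply a) (measurable_pi_apply b)
    · simp [hab]

lemma iSup_cons {n : ℕ} (r : ℝ) (y : Fin n → ℝ)
    (hy : y ∈ Ch (1 : Equiv.Perm (Fin n))) :
    (⨆ a, (Fin.cons r (fun i => r + y i) : Fin (n + 1) → ℝ) a) = r + ⨆ a, y a := by
  rcases Nat.eq_zero_or_pos n with hn | hn
  · subst hn
    rw [Real.iSup_of_isEmpty y, add_zero]
    refine le_antisymm (ciSup_le fun a => ?_) (le_ciSup_of_le (Set.finite_range _).bddAbove 0 ?_)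
    · refine Fin.cases ?_ (fun i => i.elim0) a
      simp
    · simp
  · have : Nonempty (Fin n) := ⟨⟨0, hn⟩⟩
    refine le_antisymm (ciSup_le fun a => ?_) ?_
    · refine Fin.cases ?_ (fun i => ?_) a
      · rw [Fin.cons_zero]
        have h1 : 0 < y ⟨0, hn⟩ := hy.1 _
        have h2 : y ⟨0, hn⟩ ≤ ⨆ a, y a := le_ciSup (Set.finite_range _).bddAbove _
        linarith
      · rw [Fin.cons_succ]
        have h2 : y i ≤ ⨆ a, y a := le_ciSup (Set.finite_range _).bddAbove _
        linarith
    · obtain ⟨i, hi⟩ := exists_eq_ciSup_of_finite (f := y)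
      rw [← hi]
      refine le_ciSup_of_le (Set.finite_range _).bddAbove i.succ ?_
      rw [Fin.cons_succ]

lemma lintegral_exp : ∫⁻ r in Set.Ioi (0 : ℝ), ENNReal.ofReal (Real.exp (-r)) = 1 := by
  rw [← ofReal_integral_eq_lintegral_ofReal]
  · rw [integral_exp_neg_Ioi_zero]; simp
  · exact integrableOn_exp_neg_Ioi 0
  · exact Filter.Eventually.of_forall fun r => (Real.exp_pos _).le

/-- GMC -/
theorem gmc (h1 : PeelStmt) (h2 : GmbStmt) : GmcStmt := by
  intro n
  induction n with
  | zero => intro φ i; exact i.elim0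
  | succ n ih =>
    intro φ i j hφ hij
    have hsup : ∀ m : ℕ, Measurable (fun x : Fin m → ℝ =>
        ENNReal.ofReal (Real.exp (-⨆ a, x a))) := by
      intro m
      refine ENNReal.measurable_ofReal.comp (Real.measurable_exp.comp (Measurable.neg ?_))
      exact Measurable.iSup fun a => measurable_pi_apply a
    have hmeas : Measurable (fun x : Fin (n + 1) → ℝ =>
        φ (x j - x i) * ENNReal.ofReal (Real.exp (-⨆ a, x a))) := by
      exact Measurable.mul (hφ.comp ((measurable_pi_apply j).sub (measurable_pi_apply i)))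
        (hsup _)
    rw [h1 n _ hmeas]
    -- j is a successor
    obtain ⟨j', rfl⟩ : ∃ j' : Fin n, j = j'.succ := by
      refine ⟨j.pred ?_, (Fin.succ_pred _ _).symm⟩
      rintro rfl
      exact absurd hij (by simp)
    set K : ENNReal := ∫⁻ r in Set.Ioi (0 : ℝ), φ r * ENNReal.ofReal (Real.exp (-r) *
      r ^ (((j'.succ : Fin (n + 1)) : ℕ) - i - 1) /
      ((((j'.succ : Fin (n + 1)) : ℕ) - i - 1).factorial : ℝ)) with hK
    have hval : ∃ D : (Fin n → ℝ) → ℝ, Measurable D ∧
        (∀ (r : ℝ) (y : Fin n → ℝ), (Fin.cons r (fun i => r + y i) : Fin (n + 1) → ℝ) j'.succ -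
          (Fin.cons r (fun i => r + y i) : Fin (n + 1) → ℝ) i = D y) ∧
        ∫⁻ y in Ch (1 : Equiv.Perm (Fin n)), φ (D y) *
          ENNReal.ofReal (Real.exp (-⨆ a, y a)) = K := by
      rcases Fin.eq_zero_or_eq_succ i with hi | ⟨i', hi⟩
      · subst hi
        refine ⟨fun y => y j', measurable_pi_apply j', ?_, ?_⟩
        · intro r y
          rw [Fin.cons_succ, Fin.cons_zero]
          ring
        · rw [h2 n φ j' hφ, hK]
          simp
      · subst hi
        refine ⟨fun y => y j' - y i', (measurable_pi_apply j').sub (measurable_pi_apply i'), ?_, ?_⟩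
        · intro r y
          rw [Fin.cons_succ, Fin.cons_succ]
          ring
        · rw [ih φ i' j' hφ (by simpa using hij), hK]
          simp
    obtain ⟨D, hDm, hD, hDK⟩ := hval
    have hinner : ∀ r ∈ Set.Ioi (0 : ℝ), (∫⁻ y in Ch (1 : Equiv.Perm (Fin n)),
        φ ((Fin.cons r (fun i => r + y i) : Fin (n + 1) → ℝ) j'.succ -
          (Fin.cons r (fun i => r + y i) : Fin (n + 1) → ℝ) i) *
        ENNReal.ofReal (Real.exp (-⨆ a, (Fin.cons r (fun i => r + y i) : Fin (n + 1) → ℝ) a))) =
        ENNReal.ofReal (Real.exp (-r)) * K := by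
      intro r hr
      have hm2 : Measurable (fun y : Fin n → ℝ => φ (D y) *
          ENNReal.ofReal (Real.exp (-⨆ a, y a))) := (hφ.comp hDm).mul (hsup n)
      rw [← hDK, ← lintegral_const_mul _ hm2]
      refine setLIntegral_congr_fun (measurableSet_Ch _) ?_
      intro y hy
      dsimp only
      rw [hD, iSup_cons r y hy, neg_add, Real.exp_add, ENNReal.ofReal_mul (Real.exp_pos _).le]
      ring
    rw [setLIntegral_congr_fun measurableSet_Ioi hinner, lintegral_mul_const _ (by fun_prop),
      lintegral_exp, one_mul]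

end Pool.Agent.Helper49.GP
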