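import Pool.Agent.Helper72.GP.Goals

/-!
# GP-FIB: the values of a random affine form at two different points are independent
-/

set_option autoImplicit false

namespace Pool.Agent.Helper49.GP

open Finset Polynomial
open Pool.Agent.Helper72.GP
open scoped Polynomial.Bivariate Classical

theorem fib : FIB := by
  intro R hR x z hxz v w
  haveI : Fact R.Prime := ⟨hR⟩
  haveI : NeZero R := ⟨hR.ne_zero⟩
  have hc : Nat.card (Fin 8 → ZMod R) = R ^ 8 := by
    rw [Nat.card_fun, Nat.card_eq_fintype_card, Nat.card_eq_fintype_card, ZMod.card, Fintype.card_fin]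
  rw [← hc]
  rcases hxz with h | h
  · refine Nat.card_le_card_of_injective
      (fun ω : {ω : O1 R // (∀ i, lin (ω i) x = v i) ∧ (∀ i, lin (ω i) z = w i)} =>
        (fun i => (ω.1 i).2.1 : Fin 8 → ZMod R)) ?_
    rintro ⟨ω, h1, h2⟩ ⟨ω', h1', h2'⟩ he
    apply Subtype.ext
    funext i
    have e0 : (ω i).2.1 = (ω' i).2.1 := congrFun he i
    have e1 : lin (ω i) x = lin (ω' i) x := (h1 i).trans (h1' i).symm
    have e2 : lin (ω i) z = lin (ω' i) z := (h2 i).trans (h2' i).symm
    unfold lin at e1 e2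
    rw [e0] at e1 e2
    have e3 : ((ω i).1 - (ω' i).1) * ((x.1 : ZMod R) - z.1) = 0 := by linear_combination e1 - e2
    have e4 : (ω i).1 = (ω' i).1 :=
      sub_eq_zero.1 ((mul_eq_zero.1 e3).resolve_right (sub_ne_zero.2 h))
    rw [e4] at e1
    have e5 : (ω i).2.2 = (ω' i).2.2 := by linear_combination e1
    exact Prod.ext e4 (Prod.ext e0 e5)
  · refine Nat.card_le_card_of_injective
      (fun ω : {ω : O1 R // (∀ i, lin (ω i) x = v i) ∧ (∀ i, lin (ω i) z = w i)} =>
        (fun i => (ω.1 i).1 : Fin 8 → ZMod R)) ?_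
    rintro ⟨ω, h1, h2⟩ ⟨ω', h1', h2'⟩ he
    apply Subtype.ext
    funext i
    have e0 : (ω i).1 = (ω' i).1 := congrFun he i
    have e1 : lin (ω i) x = lin (ω' i) x := (h1 i).trans (h1' i).symm
    have e2 : lin (ω i) z = lin (ω' i) z := (h2 i).trans (h2' i).symm
    unfold lin at e1 e2
    rw [e0] at e1 e2
    have e3 : ((ω i).2.1 - (ω' i).2.1) * ((x.2 : ZMod R) - z.2) = 0 := by linear_combination e1 - e2
    have e4 : (ω i).2.1 = (ω' i).2.1 :=
      sub_eq_zero.1 ((mul_eq_zero.1 e3).resolve_right (sub_ne_zero.2 h))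
    rw [e4] at e1
    have e5 : (ω i).2.2 = (ω' i).2.2 := by linear_combination e1
    exact Prod.ext e0 (Prod.ext e4 e5)

end Pool.Agent.Helper49.GP
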