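import Pool.Agent.Helper72.GP.GoalsB

/-!
# GP-WDIV: the weight of the prime powers dividing the gcds
-/

set_option autoImplicit false

namespace Pool.Agent.Helper49.GP

open Finset Polynomial
open Pool.Agent.Helper72.GP
open scoped Polynomial.Bivariate Classical

theorem Lam_nonneg (q : ℕ) : 0 ≤ Lam q := ArithmeticFunction.vonMangoldt_nonneg

/-- the weights of distinct divisors of `n` add up to at most `log n` -/
theorem sum_Lam_le {n : ℕ} (hn : n ≠ 0) (T : Finset ℕ) (hT : ∀ q ∈ T, q ∣ n) :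
    ∑ q ∈ T, Lam q ≤ Real.log n := by
  calc ∑ q ∈ T, Lam q ≤ ∑ q ∈ n.divisors, Lam q := by
        refine Finset.sum_le_sum_of_subset_of_nonneg (fun q hq => ?_) fun q _ _ => Lam_nonneg q
        exact Nat.mem_divisors.2 ⟨hT q hq, hn⟩
    _ = Real.log n := ArithmeticFunction.vonMangoldt_sum

theorem sum_ind {Q : Finset ℕ} (p : ℕ → Prop) [DecidablePred p] :
    ∑ q ∈ Q, Lam q * (if p q then 1 else 0) = ∑ q ∈ Q.filter p, Lam q := by
  rw [Finset.sum_filter]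
  refine Finset.sum_congr rfl fun q _ => ?_
  split_ifs <;> simp

theorem dvd_of_dvd_gd {q : ℕ} {x y : Pt} (h : q ∣ gd x y) :
    (q : ℤ) ∣ x.1 - y.1 ∧ (q : ℤ) ∣ x.2 - y.2 := by
  unfold gd at h
  have h' : (q : ℤ) ∣ (Int.gcd (x.1 - y.1) (x.2 - y.2) : ℤ) := Int.natCast_dvd_natCast.2 h
  exact ⟨h'.trans (Int.gcd_dvd_left _ _), h'.trans (Int.gcd_dvd_right _ _)⟩

theorem dvd_evc_sub {m : ℕ} (c : Fin m → Fin m → ℤ) {q : ℕ} {x y : Pt} (h : q ∣ gd x y) :
    (q : ℤ) ∣ evc c x - evc c y := by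
  obtain ⟨h1, h2⟩ := dvd_of_dvd_gd h
  unfold evc
  rw [← Finset.sum_sub_distrib]
  refine Finset.dvd_sum fun i _ => ?_
  rw [← Finset.sum_sub_distrib]
  refine Finset.dvd_sum fun j _ => ?_
  have e1 : (q : ℤ) ∣ x.1 ^ (i : ℕ) - y.1 ^ (i : ℕ) := h1.trans (sub_dvd_pow_sub_pow _ _ _)
  have e2 : (q : ℤ) ∣ x.2 ^ (j : ℕ) - y.2 ^ (j : ℕ) := h2.trans (sub_dvd_pow_sub_pow _ _ _)
  have e3 : c i j * x.1 ^ (i : ℕ) * x.2 ^ (j : ℕ) - c i j * y.1 ^ (i : ℕ) * y.2 ^ (j : ℕ) =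
      (x.1 ^ (i : ℕ) - y.1 ^ (i : ℕ)) * (c i j * x.2 ^ (j : ℕ)) +
        (x.2 ^ (j : ℕ) - y.2 ^ (j : ℕ)) * (c i j * y.1 ^ (i : ℕ)) := by ring
  rw [e3]
  exact dvd_add (e1.mul_right _) (e2.mul_right _)

theorem gd_ne_zero {x y : Pt} (h : y ≠ x) : gd x y ≠ 0 := by
  intro h0
  unfold gd at h0
  obtain ⟨h1, h2⟩ := Int.gcd_eq_zero_iff.1 h0
  exact h (Prod.ext (by omega) (by omega))

theorem gd_le {X : ℕ} {x y : Pt} (hx : 0 ≤ x.1 ∧ x.1 ≤ X ∧ 0 ≤ x.2 ∧ x.2 ≤ X)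
    (hy : 0 ≤ y.1 ∧ y.1 ≤ X ∧ 0 ≤ y.2 ∧ y.2 ≤ X) : gd x y ≤ X := by
  obtain ⟨h1, h2⟩ := dvd_of_dvd_gd (dvd_refl (gd x y))
  by_cases e1 : x.1 - y.1 = 0
  · by_cases e2 : x.2 - y.2 = 0
    · unfold gd
      rw [e1, e2]
      simp
    · have h3 := Int.le_of_dvd (abs_pos.2 e2) ((dvd_abs _ _).2 h2)
      have h4 : |x.2 - y.2| ≤ X := abs_le.2 ⟨by omega, by omega⟩
      exact_mod_cast h3.trans h4
  · have h3 := Int.le_of_dvd (abs_pos.2 e1) ((dvd_abs _ _).2 h1)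
    have h4 : |x.1 - y.1| ≤ X := abs_le.2 ⟨by omega, by omega⟩
    exact_mod_cast h3.trans h4

theorem wdiv : WDIV := by
  constructor
  · intro m K c s x Q hs hx
    rw [sum_ind (fun q => ∃ k, s k ≠ x ∧ q ∣ gd x (s k))]
    have hn : (evc c x).natAbs ≠ 0 := Int.natAbs_ne_zero.2 hx
    have hl : Real.log |(evc c x : ℝ)| = Real.log ((evc c x).natAbs : ℝ) := by
      rw [Nat.cast_natAbs, Int.cast_abs]
    rw [hl]
    refine sum_Lam_le hn _ fun q hq => ?_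
    obtain ⟨k, _, hk⟩ := (Finset.mem_filter.1 hq).2
    have h1 := dvd_evc_sub c hk
    rw [hs k, sub_zero] at h1
    exact Int.natCast_dvd.1 h1
  · intro X K s x Q hX hx hs
    have hlog : 0 ≤ Real.log X := Real.log_nonneg (by exact_mod_cast hX)
    have h1 : ∀ k : Fin K, ∑ q ∈ Q, Lam q * (if s k ≠ x ∧ q ∣ gd x (s k) then 1 else 0) ≤ Real.log X := by
      intro k
      rw [sum_ind (fun q => s k ≠ x ∧ q ∣ gd x (s k))]
      by_cases hk : s k = x
      · rw [Finset.filter_false_of_mem (fun q _ h => h.1 hk), Finset.sum_empty]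
        exact hlog
      · have hg := gd_ne_zero hk
        refine (sum_Lam_le hg _ fun q hq => (Finset.mem_filter.1 hq).2.2).trans ?_
        refine Real.log_le_log (by exact_mod_cast Nat.pos_of_ne_zero hg) ?_
        exact_mod_cast gd_le hx (hs k)
    calc ∑ q ∈ Q, Lam q * (if ∃ k, s k ≠ x ∧ q ∣ gd x (s k) then 1 else 0)
        ≤ ∑ q ∈ Q, ∑ k : Fin K, Lam q * (if s k ≠ x ∧ q ∣ gd x (s k) then 1 else 0) := by
          refine Finset.sum_le_sum fun q _ => ?_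
          have hnn : ∀ k ∈ (Finset.univ : Finset (Fin K)),
              0 ≤ Lam q * (if s k ≠ x ∧ q ∣ gd x (s k) then (1 : ℝ) else 0) := by
            intro k _
            refine mul_nonneg (Lam_nonneg q) ?_
            split_ifs <;> norm_num
          by_cases h : ∃ k, s k ≠ x ∧ q ∣ gd x (s k)
          · obtain ⟨k, hk⟩ := h
            have h2 := Finset.single_le_sum hnn (Finset.mem_univ k)
            rw [if_pos hk] at h2
            rw [if_pos ⟨k, hk⟩]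
            exact h2
          · rw [if_neg h, mul_zero]
            exact Finset.sum_nonneg hnn
      _ = ∑ k : Fin K, ∑ q ∈ Q, Lam q * (if s k ≠ x ∧ q ∣ gd x (s k) then 1 else 0) := Finset.sum_comm
      _ ≤ ∑ _k : Fin K, Real.log X := Finset.sum_le_sum fun k _ => h1 k
      _ = K * Real.log X := by simp

end Pool.Agent.Helper49.GP
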